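import Mathlib

/-!
Backup for MP_576c25_an: the boundary length of a bounded convex planar set (in the sense of the one dimensional
Hausdorff measure; twice the length for sets without interior) is at most the integral of the support function.
-/

set_option autoImplicit false
open MeasureTheory Set
open scoped ENNReal Real

namespace Pool.Agent.Helper25.PCapB

/-- the plane -/
abbrev P := EuclideanSpace ℝ (Fin 2)

/-- the unit vector of angle `θ` -/
noncomputable def ev (θ : ℝ) : P :=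
  EuclideanSpace.single (0 : Fin 2) (Real.cos θ) + EuclideanSpace.single (1 : Fin 2) (Real.sin θ)

theorem inner_ev (x : P) (θ : ℝ) :
    inner ℝ x (ev θ) = x 0 * Real.cos θ + x 1 * Real.sin θ := by
  rw [ev, inner_add_right, EuclideanSpace.inner_single_right, EuclideanSpace.inner_single_right]
  simp [mul_comm]

theorem ev0 (θ : ℝ) : ev θ 0 = Real.cos θ := by simp [ev]

theorem ev1 (θ : ℝ) : ev θ 1 = Real.sin θ := by simp [ev]

theorem inner_coord (x y : P) : inner ℝ x y = x 0 * y 0 + x 1 * y 1 := by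
  simp [PiLp.inner_apply, Fin.sum_univ_two, mul_comm]

theorem norm_ev (θ : ℝ) : ‖ev θ‖ = 1 := by
  rw [EuclideanSpace.norm_eq, Fin.sum_univ_two, ev0, ev1]
  simp

/-- the support function -/
noncomputable def hs (Ω : Set P) (θ : ℝ) : ℝ :=
  sSup ((fun x : P => inner ℝ x (ev θ)) '' Ω)

theorem bdd {Ω : Set P} (hb : Bornology.IsBounded Ω) (θ : ℝ) :
    BddAbove ((fun x : P => inner ℝ x (ev θ)) '' Ω) := by
  obtain ⟨R, hR⟩ := hb.exists_norm_le
  refine ⟨R, ?_⟩
  rintro _ ⟨x, hx, rfl⟩
  have h1 := real_inner_le_norm x (ev θ)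
  rw [norm_ev, mul_one] at h1
  exact h1.trans (hR x hx)

theorem le_hs {Ω : Set P} (hb : Bornology.IsBounded Ω) (θ : ℝ) {x : P} (hx : x ∈ closure Ω) :
    inner ℝ x (ev θ) ≤ hs Ω θ := by
  have hcl : IsClosed {x : P | inner ℝ x (ev θ) ≤ hs Ω θ} :=
    isClosed_le (by fun_prop) continuous_const
  exact closure_minimal (fun y hy => le_csSup (bdd hb θ) ⟨y, hy, rfl⟩) hcl hx

theorem hs_le {Ω : Set P} (hne : Ω.Nonempty) {θ c : ℝ} (h : ∀ x ∈ Ω, inner ℝ x (ev θ) ≤ c) :
    hs Ω θ ≤ c := by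
  refine csSup_le (hne.image _) ?_
  rintro _ ⟨x, hx, rfl⟩
  exact h x hx

theorem hs_sub {Ω : Set P} (hne : Ω.Nonempty) (hb : Bornology.IsBounded Ω) (θ δ : ℝ)
    (hδ : 0 < Real.cos δ) :
    2 * Real.cos δ * hs Ω θ ≤ hs Ω (θ + δ) + hs Ω (θ - δ) := by
  have h1 : hs Ω θ ≤ (hs Ω (θ + δ) + hs Ω (θ - δ)) / (2 * Real.cos δ) := by
    apply hs_le hne
    intro x hx
    rw [le_div_iff₀ (by positivity)]
    have h2 := le_hs hb (θ + δ) (subset_closure hx)
    have h3 := le_hs hb (θ - δ) (subset_closure hx)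
    rw [inner_ev] at h2 h3 ⊢
    rw [Real.cos_add, Real.sin_add] at h2
    rw [Real.cos_sub, Real.sin_sub] at h3
    nlinarith
  rw [le_div_iff₀ (by positivity)] at h1
  linarith

theorem continuous_ev : Continuous ev := by
  have h : ev = fun θ => WithLp.toLp 2 ![Real.cos θ, Real.sin θ] := by
    funext θ
    ext i
    fin_cases i <;> simp [ev]
  rw [h]
  apply (PiLp.continuous_toLp 2 _).comp
  refine continuous_pi fun i => ?_
  fin_cases i
  · exact Real.continuous_cos
  · exact Real.continuous_sin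

theorem continuous_hs {Ω : Set P} (hne : Ω.Nonempty) (hb : Bornology.IsBounded Ω) :
    Continuous (hs Ω) := by
  obtain ⟨R, hR⟩ := hb.exists_norm_le
  have key : ∀ θ θ' : ℝ, hs Ω θ ≤ hs Ω θ' + R * ‖ev θ - ev θ'‖ := by
    intro θ θ'
    apply hs_le hne
    intro x hx
    have h1 := le_hs hb θ' (subset_closure hx)
    have h2 := real_inner_le_norm x (ev θ - ev θ')
    have h3 : inner ℝ x (ev θ) = inner ℝ x (ev θ') + inner ℝ x (ev θ - ev θ') := by
      rw [← inner_add_right]
      congr 1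
      abel
    have h4 : ‖x‖ * ‖ev θ - ev θ'‖ ≤ R * ‖ev θ - ev θ'‖ :=
      mul_le_mul_of_nonneg_right (hR x hx) (norm_nonneg _)
    linarith
  rw [continuous_iff_continuousAt]
  intro θ0
  rw [ContinuousAt, tendsto_iff_dist_tendsto_zero]
  have h1 : Filter.Tendsto (fun θ => R * ‖ev θ - ev θ0‖) (nhds θ0) (nhds 0) := by
    have h2 : Continuous fun θ => R * ‖ev θ - ev θ0‖ :=
      continuous_const.mul (continuous_ev.sub continuous_const).norm
    have h3 := h2.tendsto θ0
    simpa using h3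
  refine squeeze_zero (fun _ => dist_nonneg) (fun θ => ?_) h1
  rw [Real.dist_eq, abs_le]
  have h2 := key θ θ0
  have h3 := key θ0 θ
  rw [norm_sub_rev] at h3
  constructor <;> linarith

theorem ev_add (θ δ : ℝ) :
    ev (θ + δ) = Real.cos δ • ev θ + Real.sin δ • ev (θ + π / 2) := by
  ext i
  fin_cases i
  · simp [ev, Real.cos_add]
    ring
  · simp [ev, Real.sin_add]
    ring

theorem ev_per (θ : ℝ) (q : ℤ) : ev (θ + q * (2 * π)) = ev θ := by
  ext i
  fin_cases i
  · simp [ev, Real.cos_add_int_mul_two_pi]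
  · simp [ev, Real.sin_add_int_mul_two_pi]

theorem hs_per (Ω : Set P) (θ : ℝ) (q : ℤ) : hs Ω (θ + q * (2 * π)) = hs Ω θ := by
  rw [hs, ev_per]
  rfl

/-- the parametrised supporting line -/
noncomputable def ln (c θ : ℝ) (s : ℝ) : P := c • ev θ + s • ev (θ + π / 2)

theorem isometry_ln (c θ : ℝ) : Isometry (ln c θ) := by
  refine Isometry.of_dist_eq fun s t => ?_
  rw [dist_eq_norm, dist_eq_norm]
  have h : ln c θ s - ln c θ t = (s - t) • ev (θ + π / 2) := by
    rw [ln, ln, sub_smul]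
    abel
  rw [h, norm_smul, norm_ev, mul_one]

theorem eq_ln (y : P) (θ : ℝ) :
    y = ln (inner ℝ y (ev θ)) θ (inner ℝ y (ev (θ + π / 2))) := by
  have hs := Real.sin_sq_add_cos_sq θ
  ext i
  fin_cases i
  · simp only [ln, inner_ev, Fin.zero_eta, PiLp.add_apply, PiLp.smul_apply, ev0, smul_eq_mul,
      Real.cos_add_pi_div_two, Real.sin_add_pi_div_two]
    linear_combination (-(y 0)) * hs
  · simp only [ln, inner_ev, Fin.mk_one, PiLp.add_apply, PiLp.smul_apply, ev1, smul_eq_mul,
      Real.cos_add_pi_div_two, Real.sin_add_pi_div_two]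
    linear_combination (-(y 1)) * hs

end Pool.Agent.Helper25.PCapB
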