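import Pool.Agent.Helper25.PCapB.Cauchy

/-!
Backup for MP_576c25_an: covering by the edges of a circumscribed equiangular polygon.
-/

set_option autoImplicit false
open MeasureTheory Set
open scoped ENNReal Real

namespace Pool.Agent.Helper25.PCapB

/-- the length of the edge of the circumscribed equiangular polygon in the direction `θ` -/
noncomputable def ll (Ω : Set P) (δ θ : ℝ) : ℝ :=
  (hs Ω (θ + δ) - Real.cos δ * hs Ω θ) / Real.sin δ +
    (hs Ω (θ - δ) - Real.cos δ * hs Ω θ) / Real.sin δ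

theorem ll_nonneg {Ω : Set P} (hne : Ω.Nonempty) (hb : Bornology.IsBounded Ω) (θ : ℝ) {δ : ℝ}
    (hδ : 0 < Real.cos δ) (hδ' : 0 < Real.sin δ) : 0 ≤ ll Ω δ θ := by
  rw [ll, ← add_div]
  apply div_nonneg _ hδ'.le
  have := hs_sub hne hb θ δ hδ
  linarith

/-- the edge -/
noncomputable def edge (Ω : Set P) (δ θ : ℝ) : Set P :=
  ln (hs Ω θ) θ '' Icc (-((hs Ω (θ - δ) - Real.cos δ * hs Ω θ) / Real.sin δ))
    ((hs Ω (θ + δ) - Real.cos δ * hs Ω θ) / Real.sin δ)

theorem measure_edge (Ω : Set P) (δ θ : ℝ) :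
    Measure.hausdorffMeasure 1 (edge Ω δ θ) = ENNReal.ofReal (ll Ω δ θ) := by
  rw [edge, (isometry_ln _ _).hausdorffMeasure_image (Or.inl zero_le_one),
    hausdorffMeasure_real, Real.volume_Icc, ll]
  congr 1
  ring

theorem mem_edge {Ω : Set P} {δ θ : ℝ} (hδ : 0 < Real.sin δ) {y : P}
    (h0 : inner ℝ y (ev θ) = hs Ω θ) (h1 : inner ℝ y (ev (θ + δ)) ≤ hs Ω (θ + δ))
    (h2 : inner ℝ y (ev (θ - δ)) ≤ hs Ω (θ - δ)) : y ∈ edge Ω δ θ := by
  refine ⟨inner ℝ y (ev (θ + π / 2)), ⟨?_, ?_⟩, ?_⟩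
  · rw [sub_eq_add_neg, ev_add, inner_add_right, inner_smul_right, inner_smul_right, h0,
      Real.cos_neg, Real.sin_neg, ← sub_eq_add_neg] at h2
    rw [neg_le, div_eq_mul_inv, ← div_eq_mul_inv, le_div_iff₀ hδ]
    linarith
  · rw [ev_add, inner_add_right, inner_smul_right, inner_smul_right, h0] at h1
    rw [le_div_iff₀ hδ]
    linarith
  · rw [← h0]
    exact (eq_ln y θ).symm

theorem exists_pos (φ : ℝ) {m : ℕ} (hm : 2 ≤ m) {ν : P} (hν : ν ≠ 0) :
    ∃ k ∈ Finset.range (4 * m), 0 < inner ℝ ν (ev (φ + k * (π / (2 * m)))) := by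
  have hm0 : (m : ℝ) ≠ 0 := by
    have : 0 < m := by omega
    exact_mod_cast this.ne'
  by_contra hcon
  push Not at hcon
  have h0 := hcon 0 (Finset.mem_range.2 (by omega))
  have h1 := hcon m (Finset.mem_range.2 (by omega))
  have h2 := hcon (2 * m) (Finset.mem_range.2 (by omega))
  have h3 := hcon (3 * m) (Finset.mem_range.2 (by omega))
  have e1 : φ + (m : ℝ) * (π / (2 * m)) = φ + π / 2 := by field_simp
  have e2 : φ + ((2 * m : ℕ) : ℝ) * (π / (2 * m)) = φ + π := by push_cast; field_simp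
  have e3 : φ + ((3 * m : ℕ) : ℝ) * (π / (2 * m)) = (φ + π / 2) + π := by
    push_cast; field_simp; ring
  rw [Nat.cast_zero, zero_mul, add_zero, inner_ev] at h0
  rw [e1, inner_ev, Real.cos_add_pi_div_two, Real.sin_add_pi_div_two] at h1
  rw [e2, inner_ev, Real.cos_add_pi, Real.sin_add_pi] at h2
  rw [e3, inner_ev, Real.cos_add_pi, Real.sin_add_pi, Real.cos_add_pi_div_two,
    Real.sin_add_pi_div_two] at h3
  have hsc := Real.sin_sq_add_cos_sq φ
  have a1 : ν 0 * Real.cos φ + ν 1 * Real.sin φ = 0 := by linarith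
  have a2 : -(ν 0 * Real.sin φ) + ν 1 * Real.cos φ = 0 := by linarith
  apply hν
  ext i
  fin_cases i
  · show ν 0 = 0
    linear_combination (-(ν 0)) * hsc + Real.cos φ * a1 - Real.sin φ * a2
  · show ν 1 = 0
    linear_combination (-(ν 1)) * hsc + Real.sin φ * a1 + Real.cos φ * a2

/-- the point of the boundary of the circumscribed polygon over the point `x` -/
theorem exists_point {Ω : Set P} (hb : Bornology.IsBounded Ω) (φ : ℝ) {m : ℕ}
    (hm : 2 ≤ m) {x ν : P} (hx : x ∈ closure Ω) (hν : ν ≠ 0) :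
    ∃ (t : ℝ) (k : ℕ), 0 ≤ t ∧ k ∈ Finset.range (4 * m) ∧
      0 < inner ℝ ν (ev (φ + k * (π / (2 * m)))) ∧
      inner ℝ (x + t • ν) (ev (φ + k * (π / (2 * m)))) = hs Ω (φ + k * (π / (2 * m))) ∧
      ∀ j ∈ Finset.range (4 * m),
        inner ℝ (x + t • ν) (ev (φ + j * (π / (2 * m)))) ≤ hs Ω (φ + j * (π / (2 * m))) := by
  set e : ℕ → P := fun j => ev (φ + j * (π / (2 * m))) with he
  set h : ℕ → ℝ := fun j => hs Ω (φ + j * (π / (2 * m))) with hh
  have hxe : ∀ j, inner ℝ x (e j) ≤ h j := fun j => le_hs hb _ hx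
  obtain ⟨k0, hk0, hk0'⟩ := exists_pos φ hm hν
  have hne : ((Finset.range (4 * m)).filter fun j => 0 < inner ℝ ν (e j)).Nonempty :=
    ⟨k0, Finset.mem_filter.2 ⟨hk0, hk0'⟩⟩
  obtain ⟨k, hk, hmin⟩ := Finset.exists_min_image _
    (fun j => (h j - inner ℝ x (e j)) / inner ℝ ν (e j)) hne
  rw [Finset.mem_filter] at hk
  obtain ⟨hkr, hkp⟩ := hk
  refine ⟨(h k - inner ℝ x (e k)) / inner ℝ ν (e k), k, ?_, hkr, hkp, ?_, ?_⟩
  · exact div_nonneg (by linarith [hxe k]) hkp.le
  · change inner ℝ (x + ((h k - inner ℝ x (e k)) / inner ℝ ν (e k)) • ν) (e k) = h k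
    rw [inner_add_left, real_inner_smul_left, div_mul_cancel₀ _ hkp.ne']
    ring
  · intro j hj
    change inner ℝ (x + ((h k - inner ℝ x (e k)) / inner ℝ ν (e k)) • ν) (e j) ≤ h j
    rw [inner_add_left, real_inner_smul_left]
    have ht : 0 ≤ (h k - inner ℝ x (e k)) / inner ℝ ν (e k) :=
      div_nonneg (by linarith [hxe k]) hkp.le
    rcases le_or_gt (inner ℝ ν (e j)) 0 with hj0 | hj0
    · have := mul_nonpos_of_nonneg_of_nonpos ht hj0
      linarith [hxe j]
    · have h1 := hmin j (Finset.mem_filter.2 ⟨hj, hj0⟩)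
      have h2 := mul_le_mul_of_nonneg_right h1 hj0.le
      have h3 : (h j - inner ℝ x (e j)) / inner ℝ ν (e j) * inner ℝ ν (e j) =
          h j - inner ℝ x (e j) := div_mul_cancel₀ _ hj0.ne'
      linarith

/-- the constraints at all indices -/
theorem all_int {Ω : Set P} (φ : ℝ) {m : ℕ} (hm : 2 ≤ m) {y : P}
    (h : ∀ j ∈ Finset.range (4 * m),
      inner ℝ y (ev (φ + j * (π / (2 * m)))) ≤ hs Ω (φ + j * (π / (2 * m)))) (j : ℤ) :
    inner ℝ y (ev (φ + j * (π / (2 * m)))) ≤ hs Ω (φ + j * (π / (2 * m))) := by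
  have hm0 : (m : ℝ) ≠ 0 := by
    have : 0 < m := by omega
    exact_mod_cast this.ne'
  have hpos : (0 : ℤ) < 4 * m := by omega
  obtain ⟨r, hr⟩ := Int.eq_ofNat_of_zero_le (Int.emod_nonneg j hpos.ne')
  have hr2 : r < 4 * m := by
    have := Int.emod_lt_of_pos j hpos
    omega
  have hj : (j : ℤ) = r + (j / (4 * m)) * (4 * m) := by
    have := Int.emod_add_mul_ediv j (4 * m)
    rw [hr] at this
    linarith
  have hj2 : (j : ℝ) = r + ((j / (4 * m) : ℤ) : ℝ) * (4 * m) := by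
    have := congrArg (fun z : ℤ => (z : ℝ)) hj
    push_cast at this
    exact this
  have e : φ + (j : ℝ) * (π / (2 * m)) =
      (φ + r * (π / (2 * m))) + ((j / (4 * m) : ℤ) : ℝ) * (2 * π) := by
    rw [hj2]
    field_simp
    ring
  rw [e, ev_per, hs_per]
  exact h r (Finset.mem_range.2 hr2)

/-- the covering lemma -/
theorem cover {Ω : Set P} (hb : Bornology.IsBounded Ω) (φ : ℝ) {m : ℕ}
    (hm : 2 ≤ m) {A : Set P} (hA : A ⊆ closure Ω) (ν : P → P) (hν : ∀ x ∈ A, ν x ≠ 0)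
    (hsup : ∀ x ∈ A, ∀ x' ∈ A, inner ℝ (x' - x) (ν x) ≤ 0) (T : Finset ℕ)
    (hT : ∀ x ∈ A, ∀ k ∈ Finset.range (4 * m),
      0 < inner ℝ (ν x) (ev (φ + k * (π / (2 * m)))) → k ∈ T) :
    Measure.hausdorffMeasure 1 A ≤
      ∑ k ∈ T, ENNReal.ofReal (ll Ω (π / (2 * m)) (φ + k * (π / (2 * m)))) := by
  have hm0 : (0 : ℝ) < m := by
    have : 0 < m := by omega
    exact_mod_cast this
  have hm2 : (2 : ℝ) ≤ m := by exact_mod_cast hm
  have hsin : 0 < Real.sin (π / (2 * m)) := by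
    apply Real.sin_pos_of_pos_of_lt_pi (by positivity)
    rw [div_lt_iff₀ (by positivity)]
    nlinarith [Real.pi_pos]
  choose! t k ht hk hkp hke hkj using
    fun (x : P) (hx : x ∈ A) => exists_point (Ω := Ω) hb φ hm (hA hx) (hν x hx)
  set Y : A → P := fun x => (x : P) + t x • ν x with hY
  have hanti : AntilipschitzWith 1 Y := by
    refine AntilipschitzWith.of_le_mul_dist fun x x' => ?_
    rw [NNReal.coe_one, one_mul, dist_eq_norm, Subtype.dist_eq, dist_eq_norm]
    have h1 := hsup x x.2 x' x'.2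
    have h2 := hsup x' x'.2 x x.2
    have h3 : ‖(x : P) - x'‖ ^ 2 ≤ inner ℝ ((x : P) - x') (Y x - Y x') := by
      have e1 : inner ℝ ((x : P) - x') (Y x - Y x') = ‖(x : P) - x'‖ ^ 2 +
          t x * inner ℝ ((x : P) - x') (ν x) + t x' * inner ℝ ((x' : P) - x) (ν x') := by
        rw [← real_inner_self_eq_norm_sq, hY]
        have : ((x : P) + t x • ν x) - ((x' : P) + t x' • ν x') =
            ((x : P) - x') + t x • ν x - t x' • ν x' := by abel
        simp only [this]
        rw [inner_sub_right, inner_add_right, inner_smul_right, inner_smul_right,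
          ← neg_sub (x : P) (x' : P), inner_neg_left]
        ring
      have e2 : 0 ≤ inner ℝ ((x : P) - x') (ν x) := by
        rw [← neg_sub, inner_neg_left]
        linarith
      have e3 : 0 ≤ inner ℝ ((x' : P) - x) (ν x') := by
        rw [← neg_sub, inner_neg_left]
        linarith
      rw [e1]
      have := mul_nonneg (ht x x.2) e2
      have := mul_nonneg (ht x' x'.2) e3
      linarith
    have h4 := real_inner_le_norm ((x : P) - x') (Y x - Y x')
    rcases eq_or_lt_of_le (norm_nonneg ((x : P) - x')) with h5 | h5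
    · rw [← h5]
      exact norm_nonneg _
    · nlinarith
  have h1 : Measure.hausdorffMeasure 1 A ≤ Measure.hausdorffMeasure 1 (Y '' univ) := by
    have hiso : Isometry (fun x : A => (x : P)) := isometry_subtype_coe
    have e1 := hiso.hausdorffMeasure_image (d := 1) (Or.inl zero_le_one) univ
    rw [image_univ, Subtype.range_coe] at e1
    rw [e1]
    have e2 := hanti.le_hausdorffMeasure_image (d := 1) zero_le_one univ
    simpa using e2
  refine h1.trans ?_
  have h2 : Y '' univ ⊆ ⋃ j ∈ T, edge Ω (π / (2 * m)) (φ + j * (π / (2 * m))) := by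
    rintro _ ⟨x, -, rfl⟩
    have hx := x.2
    refine mem_iUnion₂.2 ⟨k x, hT x hx (k x) (hk x hx) (hkp x hx), ?_⟩
    have hall := all_int (Ω := Ω) φ hm (hkj x hx)
    refine mem_edge hsin (hke x hx) ?_ ?_
    · have := hall ((k x : ℤ) + 1)
      have e : φ + (((k x : ℤ) + 1 : ℤ) : ℝ) * (π / (2 * m)) =
          φ + (k x) * (π / (2 * m)) + π / (2 * m) := by push_cast; ring
      rwa [e] at this
    · have := hall ((k x : ℤ) - 1)
      have e : φ + (((k x : ℤ) - 1 : ℤ) : ℝ) * (π / (2 * m)) =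
          φ + (k x) * (π / (2 * m)) - π / (2 * m) := by push_cast; ring
      rwa [e] at this
  refine (measure_mono h2).trans ((measure_biUnion_finset_le _ _).trans ?_)
  exact Finset.sum_le_sum fun j _ => (measure_edge Ω _ _).le

end Pool.Agent.Helper25.PCapB
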