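import Pool.Agent.Helper25.PCapB.Cover

/-!
Backup for MP_576c25_an: the boundary length is at most the integral of the support function.
-/

set_option autoImplicit false
open MeasureTheory Set
open scoped ENNReal Real

namespace Pool.Agent.Helper25.PCapB

theorem continuous_ll {Ω : Set P} (hne : Ω.Nonempty) (hb : Bornology.IsBounded Ω) (δ : ℝ) :
    Continuous (ll Ω δ) := by
  have h := continuous_hs hne hb
  have h1 : Continuous fun θ => hs Ω (θ + δ) := h.comp (continuous_id.add continuous_const)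
  have h2 : Continuous fun θ => hs Ω (θ - δ) := h.comp (continuous_id.sub continuous_const)
  exact ((h1.sub (continuous_const.mul h)).div_const _).add
    ((h2.sub (continuous_const.mul h)).div_const _)

theorem periodic_hs (Ω : Set P) : Function.Periodic (hs Ω) (2 * π) := by
  intro θ
  have := hs_per Ω θ 1
  simpa using this

theorem integral_ll {Ω : Set P} (hne : Ω.Nonempty) (hb : Bornology.IsBounded Ω) (δ : ℝ) :
    ∫ θ in (0 : ℝ)..(2 * π), ll Ω δ θ =
      (2 - 2 * Real.cos δ) / Real.sin δ * ∫ θ in (0 : ℝ)..(2 * π), hs Ω θ := by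
  have h := continuous_hs hne hb
  have h1 : Continuous fun θ => hs Ω (θ + δ) := h.comp (continuous_id.add continuous_const)
  have h2 : Continuous fun θ => hs Ω (θ - δ) := h.comp (continuous_id.sub continuous_const)
  have e1 : ∫ θ in (0 : ℝ)..(2 * π), hs Ω (θ + δ) = ∫ θ in (0 : ℝ)..(2 * π), hs Ω θ := by
    rw [intervalIntegral.integral_comp_add_right (fun θ => hs Ω θ) δ]
    have := (periodic_hs Ω).intervalIntegral_add_eq δ 0
    rw [zero_add] at this
    rw [zero_add, add_comm (2 * π) δ]
    exact this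
  have e2 : ∫ θ in (0 : ℝ)..(2 * π), hs Ω (θ - δ) = ∫ θ in (0 : ℝ)..(2 * π), hs Ω θ := by
    rw [intervalIntegral.integral_comp_sub_right (fun θ => hs Ω θ) δ]
    have := (periodic_hs Ω).intervalIntegral_add_eq (-δ) 0
    rw [zero_add] at this
    rw [zero_sub, sub_eq_add_neg, add_comm (2 * π) (-δ)]
    exact this
  have e3 : ∀ θ, ll Ω δ θ = (1 / Real.sin δ) * hs Ω (θ + δ) + (1 / Real.sin δ) * hs Ω (θ - δ) -
      (2 * Real.cos δ / Real.sin δ) * hs Ω θ := by
    intro θ
    rw [ll]
    ring
  simp_rw [e3]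
  rw [intervalIntegral.integral_sub, intervalIntegral.integral_add,
    intervalIntegral.integral_const_mul, intervalIntegral.integral_const_mul,
    intervalIntegral.integral_const_mul, e1, e2]
  · ring
  · exact (continuous_const.mul h1).intervalIntegrable _ _
  · exact (continuous_const.mul h2).intervalIntegrable _ _
  · exact ((continuous_const.mul h1).add (continuous_const.mul h2)).intervalIntegrable _ _
  · exact (continuous_const.mul h).intervalIntegrable _ _

theorem limit {Ω : Set P} (hne : Ω.Nonempty) (hb : Bornology.IsBounded Ω) {X : ℝ≥0∞}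
    (h : ∀ (φ : ℝ) (m : ℕ), 2 ≤ m → X ≤ ∑ k ∈ Finset.range (4 * m),
      ENNReal.ofReal (ll Ω (π / (2 * m)) (φ + k * (π / (2 * m))))) :
    X ≤ ENNReal.ofReal (∫ θ in (0 : ℝ)..(2 * π), hs Ω θ) := by
  set I := ∫ θ in (0 : ℝ)..(2 * π), hs Ω θ with hI
  have hX : X ≠ ⊤ := by
    have h1 := h 0 2 le_rfl
    exact ne_top_of_le_ne_top (ENNReal.sum_ne_top.2 fun _ _ => ENNReal.ofReal_ne_top) h1
  set x := X.toReal with hx
  have hx0 : 0 ≤ x := ENNReal.toReal_nonneg
  have hXx : X = ENNReal.ofReal x := (ENNReal.ofReal_toReal hX).symm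
  have key : ∀ m : ℕ, 2 ≤ m → x * (1 - (π / (2 * m)) ^ 2 / 4) ≤ I := by
    intro m hm
    set δ : ℝ := π / (2 * m) with hδ
    have hm0 : (0 : ℝ) < m := by
      have : 0 < m := by omega
      exact_mod_cast this
    have hm2 : (2 : ℝ) ≤ m := by exact_mod_cast hm
    have hδ0 : 0 < δ := by positivity
    have hδ1 : δ ≤ π / 4 := by
      rw [hδ, div_le_div_iff₀ (by positivity) (by norm_num)]
      nlinarith [Real.pi_pos]
    have hδ2 : δ < 1 := by
      have := Real.pi_lt_d2
      linarith
    have hsin : 0 < Real.sin δ := Real.sin_pos_of_pos_of_lt_pi hδ0 (by linarith [Real.pi_pos])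
    have hcos : 0 < Real.cos δ :=
      Real.cos_pos_of_mem_Ioo ⟨by linarith [Real.pi_pos], by linarith [Real.pi_pos]⟩
    have hpt : ∀ φ : ℝ, x ≤ ∑ k ∈ Finset.range (4 * m), ll Ω δ (φ + k * δ) := by
      intro φ
      have h1 := h φ m hm
      rw [← ENNReal.ofReal_sum_of_nonneg (fun k _ => ll_nonneg hne hb _ hcos hsin), hXx] at h1
      exact (ENNReal.ofReal_le_ofReal_iff
        (Finset.sum_nonneg fun k _ => ll_nonneg hne hb _ hcos hsin)).1 h1
    have hint : δ * x ≤ ∫ φ in (0 : ℝ)..δ, ∑ k ∈ Finset.range (4 * m), ll Ω δ (φ + k * δ) := by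
      have h1 : ∫ _ in (0 : ℝ)..δ, x = δ * x := by
        rw [intervalIntegral.integral_const, sub_zero, smul_eq_mul]
      rw [← h1]
      refine intervalIntegral.integral_mono_on hδ0.le ?_ ?_ fun φ _ => hpt φ
      · exact continuous_const.intervalIntegrable _ _
      · refine Continuous.intervalIntegrable ?_ _ _
        exact continuous_finsetSum _ fun k _ =>
          (continuous_ll hne hb δ).comp (continuous_id.add continuous_const)
    have hsum : ∫ φ in (0 : ℝ)..δ, ∑ k ∈ Finset.range (4 * m), ll Ω δ (φ + k * δ) =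
        ∫ θ in (0 : ℝ)..(2 * π), ll Ω δ θ := by
      rw [intervalIntegral.integral_finsetSum]
      · have h1 : ∀ k ∈ Finset.range (4 * m), ∫ φ in (0 : ℝ)..δ, ll Ω δ (φ + k * δ) =
            ∫ θ in ((k : ℕ) : ℝ) * δ..((k + 1 : ℕ) : ℝ) * δ, ll Ω δ θ := by
          intro k _
          rw [intervalIntegral.integral_comp_add_right (fun θ => ll Ω δ θ) (k * δ)]
          congr 1
          · ring
          · push_cast
            ring
        rw [Finset.sum_congr rfl h1]
        have h2 := intervalIntegral.sum_integral_adjacent_intervals (μ := volume)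
          (f := ll Ω δ) (a := fun k : ℕ => (k : ℝ) * δ) (n := 4 * m)
          (fun k _ => (continuous_ll hne hb δ).intervalIntegrable _ _)
        rw [h2]
        congr 1
        · simp
        · push_cast
          rw [hδ]
          field_simp
          ring
      · intro k _
        exact ((continuous_ll hne hb δ).comp
          (continuous_id.add continuous_const)).intervalIntegrable _ _
    rw [hsum, integral_ll hne hb, ← hI] at hint
    have hint2 : δ * x * Real.sin δ ≤ (2 - 2 * Real.cos δ) * I := by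
      have h1 := mul_le_mul_of_nonneg_right hint hsin.le
      have h2 : (2 - 2 * Real.cos δ) / Real.sin δ * I * Real.sin δ =
          (2 - 2 * Real.cos δ) * I := by
        have := hsin.ne'
        field_simp
      rwa [h2] at h1
    have hc1 : 1 - Real.cos δ ≤ δ ^ 2 / 2 := by
      have := Real.one_sub_sq_div_two_le_cos (x := δ)
      linarith
    have hc0 : 0 < 2 - 2 * Real.cos δ := by
      have : Real.cos δ < 1 := by
        have h1 := Real.cos_lt_cos_of_nonneg_of_le_pi_div_two (le_refl (0 : ℝ))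
          (by linarith [Real.pi_pos] : δ ≤ π / 2) hδ0
        rwa [Real.cos_zero] at h1
      linarith
    have hI0 : 0 ≤ I := by
      by_contra hneg
      push Not at hneg
      have h1 : 0 ≤ δ * x * Real.sin δ := by positivity
      nlinarith
    have hs1 : δ - δ ^ 3 / 4 < Real.sin δ := by
      have h1 := Real.sin_gt_sub_cube hδ0
      have h2 : 0 < δ ^ 3 := by positivity
      linarith
    have h1 : (2 - 2 * Real.cos δ) * I ≤ δ ^ 2 * I :=
      mul_le_mul_of_nonneg_right (by linarith) hI0
    have h2 : δ * x * (δ - δ ^ 3 / 4) ≤ δ * x * Real.sin δ :=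
      mul_le_mul_of_nonneg_left hs1.le (by positivity)
    have h3 : δ ^ 2 * (x * (1 - δ ^ 2 / 4)) ≤ δ ^ 2 * I := by
      have e : δ ^ 2 * (x * (1 - δ ^ 2 / 4)) = δ * x * (δ - δ ^ 3 / 4) := by ring
      rw [e]
      linarith
    exact le_of_mul_le_mul_left h3 (by positivity)
  have hlim : Filter.Tendsto (fun m : ℕ => x * (1 - (π / (2 * (m : ℝ))) ^ 2 / 4)) Filter.atTop
      (nhds x) := by
    have h1 : Filter.Tendsto (fun m : ℕ => π / (2 * (m : ℝ))) Filter.atTop (nhds 0) := by
      have h2 := tendsto_const_div_atTop_nhds_zero_nat (π / 2)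
      refine h2.congr fun m => ?_
      rw [div_div]
    have h3 : Filter.Tendsto (fun m : ℕ => x * (1 - (π / (2 * (m : ℝ))) ^ 2 / 4)) Filter.atTop
        (nhds (x * (1 - 0 ^ 2 / 4))) :=
      tendsto_const_nhds.mul (tendsto_const_nhds.sub ((h1.pow 2).div_const 4))
    simpa using h3
  have hfin : x ≤ I :=
    le_of_tendsto hlim (Filter.eventually_atTop.2 ⟨2, fun m hm => key m hm⟩)
  rw [hXx]
  exact ENNReal.ofReal_le_ofReal hfin

/-- a bounded convex set with interior points -/
theorem frontier_le {Ω : Set P} (hne : Ω.Nonempty) (hb : Bornology.IsBounded Ω)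
    (hc : Convex ℝ Ω) (hint : (interior Ω).Nonempty) :
    Measure.hausdorffMeasure 1 (frontier Ω) ≤
      ENNReal.ofReal (∫ θ in (0 : ℝ)..(2 * π), hs Ω θ) := by
  have hsupp : ∀ x ∈ frontier Ω, ∃ v : P, v ≠ 0 ∧ ∀ y ∈ closure Ω, inner ℝ (y - x) v ≤ 0 := by
    intro x hx
    have hx2 : x ∉ interior Ω := hx.2
    obtain ⟨f, hf⟩ := geometric_hahn_banach_open_point hc.interior isOpen_interior hx2
    obtain ⟨a, ha⟩ := hint
    refine ⟨(InnerProductSpace.toDual ℝ P).symm f, ?_, ?_⟩
    · intro h0
      have h1 := hf a ha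
      have h2 : f = 0 := by
        have := congrArg (InnerProductSpace.toDual ℝ P) h0
        simpa using this
      rw [h2] at h1
      simp at h1
    · intro y hy
      rw [real_inner_comm, InnerProductSpace.toDual_symm_apply, map_sub, sub_nonpos]
      rw [← hc.closure_interior_eq_closure_of_nonempty_interior ⟨a, ha⟩] at hy
      have hcl : IsClosed {z : P | f z ≤ f x} := isClosed_le f.continuous continuous_const
      exact closure_minimal (fun z hz => (hf z hz).le) hcl hy
  choose! v hv0 hv using hsupp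
  refine limit hne hb fun φ m hm => ?_
  exact cover hb φ hm frontier_subset_closure v hv0
    (fun x hx x' hx' => hv x hx x' (frontier_subset_closure hx')) _ fun _ _ k hk _ => hk

/-- a bounded convex set without interior points -/
theorem flat_le {Ω : Set P} (hne : Ω.Nonempty) (hb : Bornology.IsBounded Ω)
    (hc : Convex ℝ Ω) (hint : ¬ (interior Ω).Nonempty) :
    2 * Measure.hausdorffMeasure 1 Ω ≤
      ENNReal.ofReal (∫ θ in (0 : ℝ)..(2 * π), hs Ω θ) := by
  obtain ⟨v, hv0, hv⟩ : ∃ v : P, v ≠ 0 ∧ ∀ x ∈ Ω, ∀ x' ∈ Ω, inner ℝ (x' - x) v = 0 := by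
    rw [hc.interior_nonempty_iff_affineSpan_eq_top] at hint
    have h1 : (affineSpan ℝ Ω).direction ≠ ⊤ := by
      intro h
      apply hint
      exact (AffineSubspace.direction_eq_top_iff_of_nonempty
        ((affineSpan_nonempty ℝ).2 hne)).1 h
    have h2 : ((affineSpan ℝ Ω).direction)ᗮ ≠ ⊥ := by
      intro h
      exact h1 (Submodule.orthogonal_eq_bot_iff.1 h)
    obtain ⟨v, hv, hv0⟩ := Submodule.exists_mem_ne_zero_of_ne_bot h2
    refine ⟨v, hv0, fun x hx x' hx' => ?_⟩
    have h3 : x' - x ∈ (affineSpan ℝ Ω).direction :=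
      AffineSubspace.vsub_mem_direction (subset_affineSpan ℝ Ω hx') (subset_affineSpan ℝ Ω hx)
    exact (Submodule.mem_orthogonal _ _).1 hv _ h3
  refine limit hne hb fun φ m hm => ?_
  set e : ℕ → P := fun k => ev (φ + k * (π / (2 * m))) with he
  set F : ℕ → ℝ≥0∞ := fun k => ENNReal.ofReal (ll Ω (π / (2 * m)) (φ + k * (π / (2 * m)))) with hF
  set T1 := (Finset.range (4 * m)).filter fun k => 0 < inner ℝ v (e k) with hT1
  set T2 := (Finset.range (4 * m)).filter fun k => 0 < inner ℝ (-v) (e k) with hT2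
  have c1 : Measure.hausdorffMeasure 1 Ω ≤ ∑ k ∈ T1, F k := by
    refine cover hb φ hm subset_closure (fun _ => v) (fun _ _ => hv0)
      (fun x hx x' hx' => (hv x hx x' hx').le) T1 fun _ _ k hk hk2 => ?_
    exact Finset.mem_filter.2 ⟨hk, hk2⟩
  have c2 : Measure.hausdorffMeasure 1 Ω ≤ ∑ k ∈ T2, F k := by
    refine cover hb φ hm subset_closure (fun _ => -v) (fun _ _ => neg_ne_zero.2 hv0)
      (fun x hx x' hx' => ?_) T2 fun _ _ k hk hk2 => ?_
    · rw [inner_neg_right, hv x hx x' hx', neg_zero]
    · exact Finset.mem_filter.2 ⟨hk, hk2⟩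
  have hdisj : Disjoint T1 T2 := by
    rw [Finset.disjoint_left]
    intro k hk1 hk2
    have h1 := (Finset.mem_filter.1 hk1).2
    have h2 := (Finset.mem_filter.1 hk2).2
    rw [inner_neg_left] at h2
    linarith
  calc 2 * Measure.hausdorffMeasure 1 Ω
      = Measure.hausdorffMeasure 1 Ω + Measure.hausdorffMeasure 1 Ω := two_mul _
    _ ≤ ∑ k ∈ T1, F k + ∑ k ∈ T2, F k := add_le_add c1 c2
    _ = ∑ k ∈ T1 ∪ T2, F k := (Finset.sum_union hdisj).symm
    _ ≤ ∑ k ∈ Finset.range (4 * m), F k := by
        apply Finset.sum_le_sum_of_subset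
        exact Finset.union_subset (Finset.filter_subset _ _) (Finset.filter_subset _ _)

end Pool.Agent.Helper25.PCapB
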